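import Mathlib
import Pool.Agent.Results.MP_544047_al.Terminates

namespace Pool.Agent.Results.MP_f02465_al.StepBound

open Pool.Agent.Results.MP_544047_al.Terminates

/-- `edges H y i` is the set `E_{i+1}`; a pair `(t, h)` is the edge `t → h • t`. -/
def edges (H : Subgroup (FreeGroup (Fin 2))) (y : FreeGroup (Fin 2)) :
    ℕ → Set ((FreeGroup (Fin 2) ⧸ H) × FreeGroup (Fin 2))
  | 0 => {e | e.2 ∈ letters ∧ e.1 = (y : FreeGroup (Fin 2) ⧸ H)}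
  | i + 1 => {e | e.2 ∈ letters ∧ (∃ d ∈ edges H y i, d.2 • d.1 = e.1) ∧
      ¬ ∃ d ∈ edges H y i, d.1 = e.2 • e.1 ∧ d.2 • d.1 = e.1}

variable (H : Subgroup (FreeGroup (Fin 2))) (y : FreeGroup (Fin 2))

theorem edges_eq (i : ℕ) : ∀ e, e ∈ edges H y i ↔
    e.2 ∈ letters ∧ e.1 ∈ layer H y (i + 1) ∧ e.2 • e.1 ∉ layer H y i := by
  induction i with
  | zero => intro e; simp [edges, layer]
  | succ i ih =>
    rintro ⟨t, h⟩
    simp only [edges, Set.mem_setOf_eq]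
    constructor
    · rintro ⟨hh, ⟨d, hd, rfl⟩, hn⟩
      obtain ⟨d1, d2, d3⟩ := (ih d).1 hd
      refine ⟨hh, ⟨⟨d.2, d1, d.1, d2, rfl⟩, d3⟩, fun hc => hn ⟨(h • d.2 • d.1, h⁻¹), ?_, rfl, by simp⟩⟩
      exact (ih _).2 ⟨inv_mem hh, hc, by simpa using d3⟩
    · rintro ⟨hh, ⟨⟨g, hg, x, hx, rfl⟩, h2⟩, h3⟩
      refine ⟨hh, ⟨(x, g), (ih _).2 ⟨hg, hx, h2⟩, rfl⟩, ?_⟩
      rintro ⟨d, hd, e1, -⟩
      exact h3 (e1 ▸ ((ih d).1 hd).2.1)

theorem nbr {j : ℕ} {h : FreeGroup (Fin 2)} (hh : h ∈ letters) {x : FreeGroup (Fin 2) ⧸ H}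
    (hx : x ∈ layer H y j) : ∃ k, (k + 1 = j ∨ k = j + 1) ∧ h • x ∈ layer H y k := by
  rcases j with _ | j
  · exact absurd hx (by simp [layer])
  · by_cases hc : h • x ∈ layer H y j
    · exact ⟨j, Or.inl rfl, hc⟩
    · exact ⟨j + 2, Or.inr rfl, ⟨h, hh, x, hx, rfl⟩, hc⟩

theorem two_le [Finite (FreeGroup (Fin 2) ⧸ H)] (i : ℕ) (hne : (layer H y (i + 3)).Nonempty) :
    2 ≤ (layer H y (i + 2)).ncard := by
  obtain ⟨_, ⟨g, hg, v, hv, rfl⟩, hgv⟩ := hne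
  by_contra hlt
  have hone : ∀ w ∈ layer H y (i + 2), w = v := fun w hw =>
    (Set.ncard_le_one (Set.toFinite _)).1 (by omega) w hw v hv
  let A : Set (FreeGroup (Fin 2) ⧸ H) := {x | ∃ j ≤ i + 1, j % 2 = (i + 1) % 2 ∧ x ∈ layer H y j}
  let B : Set (FreeGroup (Fin 2) ⧸ H) := {x | ∃ j ≤ i + 2, j % 2 = i % 2 ∧ x ∈ layer H y j}
  have hAB : ∀ h ∈ letters, (fun x => h • x) '' A ⊆ B := by
    rintro h hh _ ⟨x, ⟨j, h1, h2, hx⟩, rfl⟩
    obtain ⟨k, hk, hk'⟩ := nbr H y hh hx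
    exact ⟨k, by omega, by omega, hk'⟩
  obtain ⟨⟨h0, hh0, u, hu, huv⟩, -⟩ := id hv
  have hBA : (fun x => h0⁻¹ • x) '' B ⊆ A := by
    rintro _ ⟨x, ⟨j, h1, h2, hx⟩, rfl⟩
    by_cases hj : j = i + 2
    · subst hj
      rw [hone x hx, huv]
      exact ⟨i + 1, le_rfl, rfl, by simpa using hu⟩
    · obtain ⟨k, hk, hk'⟩ := nbr H y (inv_mem hh0) hx
      exact ⟨k, by omega, by omega, hk'⟩
  have c1 : B.ncard ≤ A.ncard := by
    rw [← Set.ncard_image_of_injective B (MulAction.injective h0⁻¹)]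
    exact Set.ncard_le_ncard hBA (Set.toFinite _)
  have c2 : (fun x => g⁻¹ • x) '' A = B :=
    Set.eq_of_subset_of_ncard_le (hAB _ (inv_mem hg))
      (by rw [Set.ncard_image_of_injective A (MulAction.injective g⁻¹)]; exact c1) (Set.toFinite _)
  have hvB : v ∈ B := ⟨i + 2, le_rfl, by omega, hv⟩
  rw [← c2] at hvB
  obtain ⟨x, ⟨j, h1, h2, hx⟩, hxv⟩ := hvB
  have hx' : x = g • v := by rw [← hxv]; simp
  subst hx'
  exact disj H y (i + 3) j (by omega) (by omega) _ ⟨⟨g, hg, v, hv, rfl⟩, hgv⟩ hx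

theorem down (i : ℕ) (hne : (layer H y (i + 2)).Nonempty) : (layer H y (i + 1)).Nonempty := by
  obtain ⟨_, ⟨g, hg, v, hv, rfl⟩, -⟩ := hne
  exact ⟨v, hv⟩

def U (n : ℕ) : Set ((FreeGroup (Fin 2) ⧸ H) × Fin 2) :=
  {p | ∃ j ≤ n, j % 2 = p.2.1 ∧ p.1 ∈ layer H y j}

theorem U_succ [Finite (FreeGroup (Fin 2) ⧸ H)] (n : ℕ) :
    (U H y (n + 1)).ncard = (U H y n).ncard + (layer H y (n + 1)).ncard := by
  let f : (FreeGroup (Fin 2) ⧸ H) → (FreeGroup (Fin 2) ⧸ H) × Fin 2 :=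
    fun x => (x, ⟨(n + 1) % 2, Nat.mod_lt _ (by norm_num)⟩)
  have hf : Function.Injective f := fun a b h => congrArg Prod.fst h
  have h1 : U H y (n + 1) = U H y n ∪ f '' layer H y (n + 1) := by
    ext ⟨x, b⟩
    constructor
    · rintro ⟨j, hj, h2, hx⟩
      by_cases hjn : j = n + 1
      · subst hjn
        exact Or.inr ⟨x, hx, Prod.ext rfl (Fin.ext h2)⟩
      · exact Or.inl ⟨j, by omega, h2, hx⟩
    · rintro (⟨j, hj, h2, hx⟩ | ⟨z, hz, h⟩)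
      · exact ⟨j, by omega, h2, hx⟩
      · rw [← h]
        exact ⟨n + 1, le_rfl, rfl, hz⟩
  rw [h1, Set.ncard_union_eq _ (Set.toFinite _) (Set.toFinite _),
    Set.ncard_image_of_injective _ hf]
  rw [Set.disjoint_left]
  rintro _ ⟨j, hj, h2, hx⟩ ⟨z, hz, rfl⟩
  exact disj H y (n + 1) j (by omega) h2 z hz hx

theorem low [Finite (FreeGroup (Fin 2) ⧸ H)] (n : ℕ) (hne : (layer H y (n + 2)).Nonempty) :
    2 * n + 1 ≤ (U H y (n + 1)).ncard := by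
  induction n with
  | zero =>
    have h1 := U_succ H y 0
    have h2 := (Set.ncard_pos (Set.toFinite _)).2 (down H y 0 hne)
    omega
  | succ n ih =>
    have h1 := U_succ H y (n + 1)
    have h2 := two_le H y n hne
    have h3 := ih (down H y (n + 1) hne)
    have h4 : n + 1 + 1 = n + 2 := rfl
    rw [h4] at h1 ⊢
    omega

theorem result (H : Subgroup (FreeGroup (Fin 2))) (hH : H.FiniteIndex) (y : FreeGroup (Fin 2))
    (i : ℕ) (hi : H.index ≤ i) : edges H y i = ∅ := by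
  have : Finite (FreeGroup (Fin 2) ⧸ H) := Subgroup.finite_quotient_of_finiteIndex
  by_contra hc
  obtain ⟨e, he⟩ := Set.nonempty_iff_ne_empty.2 hc
  obtain ⟨h1, h2, h3⟩ := (edges_eq H y i e).1 he
  have hne : (layer H y (i + 2)).Nonempty := ⟨_, ⟨e.2, h1, e.1, h2, rfl⟩, h3⟩
  have h4 := low H y i hne
  have h5 := U_succ H y (i + 1)
  have h6 := (Set.ncard_pos (Set.toFinite _)).2 hne
  have h7 := Set.ncard_le_card (U H y (i + 1 + 1))
  rw [Nat.card_prod, Nat.card_eq_fintype_card (α := Fin 2), Fintype.card_fin] at h7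
  have h8 : H.index = Nat.card (FreeGroup (Fin 2) ⧸ H) := rfl
  have h9 : i + 1 + 1 = i + 2 := rfl
  rw [h9] at h5 h7
  omega

end Pool.Agent.Results.MP_f02465_al.StepBound
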